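import Mathlib
import Pool.Agent.TeamU.G11

/-! Listing all unit distance pairs of `n` points in the plane needs `n ^ (1 + δ)` steps on a
real RAM, for some `δ > 0`: the lower bound for `T(n)` is polynomially larger than `n`. -/

namespace Pool.Agent.Results.MP_31a0d1_lc.PolynomialGap

/-- Points of the Euclidean plane. -/
abbrev Pt := EuclideanSpace ℝ (Fin 2)

/-- Instructions of a real RAM with integer registers `I 0, I 1, ...` (also used as addresses)
and real registers `R 0, R 1, ...`. -/
inductive Instr where
  /-- `I a := z` -/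
  | constI (a : ℤ) (z : ℤ)
  /-- `I a := I b + I c` -/
  | addI (a b c : ℤ)
  /-- `I a := I b - I c` -/
  | subI (a b c : ℤ)
  /-- `I a := I b * I c` -/
  | mulI (a b c : ℤ)
  /-- `I a := I b / I c` (integer division) -/
  | divI (a b c : ℤ)
  /-- `I a := I (I b)` -/
  | loadI (a b : ℤ)
  /-- `I (I a) := I b` -/
  | storeI (a b : ℤ)
  /-- `R a := x` -/
  | constR (a : ℤ) (x : ℝ)
  /-- `R a := R b + R c` -/
  | addR (a b c : ℤ)
  /-- `R a := R b - R c` -/
  | subR (a b c : ℤ)
  /-- `R a := R b * R c` -/
  | mulR (a b c : ℤ)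
  /-- `R a := R b / R c` -/
  | divR (a b c : ℤ)
  /-- `R a := R (I b)` -/
  | loadR (a b : ℤ)
  /-- `R (I a) := R b` -/
  | storeR (a b : ℤ)
  /-- if `I a ≤ I b` go to line `l` -/
  | jumpI (a b : ℤ) (l : ℕ)
  /-- if `R a ≤ R b` go to line `l` -/
  | jumpR (a b : ℤ) (l : ℕ)
  /-- append the pair of indices `(I a, I b)` to the output list -/
  | emit (a b : ℤ)

/-- Configurations: line number, integer registers, real registers, output list. -/
structure Config where
  pc : ℕ
  I : ℤ → ℤ
  R : ℤ → ℝ
  out : List (ℤ × ℤ)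

open Classical in
/-- Effect of one instruction (one time unit). -/
noncomputable def exec (c : Config) : Instr → Config
  | .constI a z => { c with pc := c.pc + 1, I := Function.update c.I a z }
  | .addI a b d => { c with pc := c.pc + 1, I := Function.update c.I a (c.I b + c.I d) }
  | .subI a b d => { c with pc := c.pc + 1, I := Function.update c.I a (c.I b - c.I d) }
  | .mulI a b d => { c with pc := c.pc + 1, I := Function.update c.I a (c.I b * c.I d) }
  | .divI a b d => { c with pc := c.pc + 1, I := Function.update c.I a (c.I b / c.I d) }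
  | .loadI a b => { c with pc := c.pc + 1, I := Function.update c.I a (c.I (c.I b)) }
  | .storeI a b => { c with pc := c.pc + 1, I := Function.update c.I (c.I a) (c.I b) }
  | .constR a x => { c with pc := c.pc + 1, R := Function.update c.R a x }
  | .addR a b d => { c with pc := c.pc + 1, R := Function.update c.R a (c.R b + c.R d) }
  | .subR a b d => { c with pc := c.pc + 1, R := Function.update c.R a (c.R b - c.R d) }
  | .mulR a b d => { c with pc := c.pc + 1, R := Function.update c.R a (c.R b * c.R d) }
  | .divR a b d => { c with pc := c.pc + 1, R := Function.update c.R a (c.R b / c.R d) }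
  | .loadR a b => { c with pc := c.pc + 1, R := Function.update c.R a (c.R (c.I b)) }
  | .storeR a b => { c with pc := c.pc + 1, R := Function.update c.R (c.I a) (c.R b) }
  | .jumpI a b l => { c with pc := if c.I a ≤ c.I b then l else c.pc + 1 }
  | .jumpR a b l => { c with pc := if c.R a ≤ c.R b then l else c.pc + 1 }
  | .emit a b => { c with pc := c.pc + 1, out := (c.I a, c.I b) :: c.out }

/-- The machine has stopped when the line number is outside the program. -/
def Halted (A : List Instr) (c : Config) : Prop := A.length ≤ c.pc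

/-- One step of the program `A` (a stopped machine does not move). -/
noncomputable def step (A : List Instr) (c : Config) : Config :=
  match A[c.pc]? with
  | some i => exec c i
  | none => c

/-- Initial configuration: `I 0 = n`, and the coordinates of the `i`-th point are in
`R (2 i)` and `R (2 i + 1)`; all other registers are `0` and the output list is empty. -/
noncomputable def init {n : ℕ} (P : Fin n → Pt) : Config where
  pc := 0
  I := fun a => if a = 0 then (n : ℤ) else 0
  R := fun a => if h : 0 ≤ a ∧ a < 2 * (n : ℤ) then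
      (P ⟨(a / 2).toNat, by omega⟩) (if a % 2 = 0 then 0 else 1) else 0
  out := []

/-- Configuration of the program `A` on input `P` after `t` steps. -/
noncomputable def run (A : List Instr) {n : ℕ} (P : Fin n → Pt) (t : ℕ) : Config :=
  (step A)^[t] (init P)

/-- The output lists exactly the unit distance pairs of `P` (each unordered pair is listed in
at least one of its two orders, repetitions allowed, and nothing else is listed). -/
def Lists {n : ℕ} (P : Fin n → Pt) (out : List (ℤ × ℤ)) : Prop :=
  (∀ i j : Fin n, dist (P i) (P j) = 1 → ((i : ℤ), (j : ℤ)) ∈ out ∨ ((j : ℤ), (i : ℤ)) ∈ out) ∧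
  (∀ q ∈ out, ∃ i j : Fin n, q = ((i : ℤ), (j : ℤ)) ∧ dist (P i) (P j) = 1)

/-- The program `A`, started on the points `P`, stops within `t` steps and has then listed all
unit distance pairs of `P`. -/
def SolvesIn (A : List Instr) {n : ℕ} (P : Fin n → Pt) (t : ℕ) : Prop :=
  Halted A (run A P t) ∧ Lists P (run A P t).out

lemma exec_out (c : Config) (i : Instr) : (exec c i).out.length ≤ c.out.length + 1 := by
  cases i <;> simp [exec]

lemma step_out (A : List Instr) (c : Config) : (step A c).out.length ≤ c.out.length + 1 := by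
  unfold step
  split
  · exact exec_out _ _
  · omega

lemma run_out (A : List Instr) {n : ℕ} (P : Fin n → Pt) (t : ℕ) :
    (run A P t).out.length ≤ t := by
  induction t with
  | zero => simp [run, init]
  | succ t ih =>
    have h : run A P (t + 1) = step A (run A P t) := by
      unfold run
      rw [Function.iterate_succ_apply']
    rw [h]
    have := step_out A (run A P t)
    omega

open Classical in
lemma card_le {n : ℕ} (P : Fin n → Pt) (out : List (ℤ × ℤ)) (h : Lists P out) :
    ((Finset.univ : Finset (Fin n × Fin n)).filter fun p => dist (P p.1) (P p.2) = 1).card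
      ≤ 2 * out.length := by
  set S := (Finset.univ : Finset (Fin n × Fin n)).filter fun p => dist (P p.1) (P p.2) = 1
  let e : Fin n × Fin n → ℤ × ℤ := fun p => ((p.1 : ℤ), (p.2 : ℤ))
  have he : Function.Injective e := by
    rintro ⟨a, b⟩ ⟨c, d⟩ hh
    simp only [e, Prod.mk.injEq, Nat.cast_inj] at hh
    exact Prod.ext (Fin.ext hh.1) (Fin.ext hh.2)
  have hsub : S.image e ⊆ out.toFinset ∪ out.toFinset.image Prod.swap := by
    intro q hq
    rw [Finset.mem_image] at hq
    obtain ⟨p, hp, rfl⟩ := hq
    have hp' : dist (P p.1) (P p.2) = 1 := (Finset.mem_filter.mp hp).2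
    rcases h.1 p.1 p.2 hp' with h1 | h1
    · exact Finset.mem_union_left _ (List.mem_toFinset.mpr h1)
    · refine Finset.mem_union_right _ (Finset.mem_image.mpr ⟨_, List.mem_toFinset.mpr h1, rfl⟩)
  have h1 : S.card = (S.image e).card := (Finset.card_image_of_injective _ he).symm
  have h2 := Finset.card_le_card hsub
  have h3 := Finset.card_union_le out.toFinset (out.toFinset.image Prod.swap)
  have h4 : (out.toFinset.image Prod.swap).card ≤ out.toFinset.card := Finset.card_image_le
  have h5 : out.toFinset.card ≤ out.length := List.toFinset_card_le out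
  omega

/-- There are `δ > 0` and `n₀` such that for every `n ≥ n₀` there are `n` distinct points `P` in
the Euclidean plane such that every real RAM program which, started on `P`, stops within `t`
steps with the list of all unit distance pairs of `P`, has `t ≥ n ^ (1 + δ)`. -/
theorem result : ∃ δ : ℝ, 0 < δ ∧ ∃ n₀ : ℕ, ∀ n : ℕ, n₀ ≤ n →
    ∃ P : Fin n → Pt, Function.Injective P ∧
      ∀ (A : List Instr) (t : ℕ), SolvesIn A P t → (n : ℝ) ^ (1 + δ) ≤ (t : ℝ) := by
  classical
  obtain ⟨ε, hε, n₀, hn⟩ := Pool.Agent.TeamU.final_of_f2 Pool.Agent.TeamU.f2_lower_all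
  refine ⟨ε / 2, by positivity, max n₀ (⌈(2 : ℝ) ^ (2 / ε)⌉₊ + 1), ?_⟩
  intro n hn0
  have hnn : n₀ ≤ n := le_trans (le_max_left _ _) hn0
  have hbig : (2 : ℝ) ^ (2 / ε) ≤ (n : ℝ) := by
    have h1 : ⌈(2 : ℝ) ^ (2 / ε)⌉₊ + 1 ≤ n := le_trans (le_max_right _ _) hn0
    have h2 : (2 : ℝ) ^ (2 / ε) ≤ (⌈(2 : ℝ) ^ (2 / ε)⌉₊ : ℝ) := Nat.le_ceil _
    have h3 : ((⌈(2 : ℝ) ^ (2 / ε)⌉₊ : ℕ) : ℝ) ≤ (n : ℝ) := by
      exact_mod_cast (by omega : ⌈(2 : ℝ) ^ (2 / ε)⌉₊ ≤ n)
    linarith
  have hnpos : (0 : ℝ) < n := lt_of_lt_of_le (by positivity) hbig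
  obtain ⟨S, hcard, hS⟩ := hn n hnn
  let eqv : Fin n ≃ S := (S.equivFinOfCardEq hcard).symm
  refine ⟨fun i => (eqv i : Pt), ?_, ?_⟩
  · intro i j hij
    exact eqv.injective (Subtype.ext hij)
  · intro A t hA
    have hc := card_le (fun i => (eqv i : Pt)) _ hA.2
    have hr := run_out A (fun i => (eqv i : Pt)) t
    have hcount : ((S ×ˢ S).filter fun p => dist p.1 p.2 = 1).card ≤
        ((Finset.univ : Finset (Fin n × Fin n)).filter fun p =>
          dist (eqv p.1 : Pt) (eqv p.2 : Pt) = 1).card := by
      refine Finset.card_le_card_of_injOn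
        (fun p => if h : p.1 ∈ S ∧ p.2 ∈ S then
          (eqv.symm ⟨p.1, h.1⟩, eqv.symm ⟨p.2, h.2⟩) else (eqv.symm (eqv ⟨0, ?_⟩), eqv.symm (eqv ⟨0, ?_⟩))) ?_ ?_
      · exact_mod_cast hnpos
      · exact_mod_cast hnpos
      · intro p hp
        have hp' := Finset.mem_filter.mp (Finset.mem_coe.mp hp)
        have hp1 := Finset.mem_product.mp hp'.1
        have hd := hp'.2
        rw [Finset.mem_coe, Finset.mem_filter]
        refine ⟨Finset.mem_univ _, ?_⟩
        simp only [hp1.1, hp1.2, and_self, dite_true, Equiv.apply_symm_apply]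
        exact hd
      · intro p hp q hq hpq
        have hp1 := Finset.mem_product.mp (Finset.mem_filter.mp (Finset.mem_coe.mp hp)).1
        have hq1 := Finset.mem_product.mp (Finset.mem_filter.mp (Finset.mem_coe.mp hq)).1
        simp only [hp1.1, hp1.2, hq1.1, hq1.2, and_self, dite_true, Prod.mk.injEq,
          EmbeddingLike.apply_eq_iff_eq, Subtype.mk.injEq] at hpq
        exact Prod.ext hpq.1 hpq.2
    have hS2 : (n : ℝ) ^ (1 + ε) ≤ 2 * (t : ℝ) := by
      refine le_trans hS ?_
      exact_mod_cast (by omega :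
        ((S ×ˢ S).filter fun p => dist p.1 p.2 = 1).card ≤ 2 * t)
    have hsplit : (n : ℝ) ^ (1 + ε) = (n : ℝ) ^ (1 + ε / 2) * (n : ℝ) ^ (ε / 2) := by
      rw [← Real.rpow_add hnpos]
      congr 1
      ring
    have htwo : (2 : ℝ) ≤ (n : ℝ) ^ (ε / 2) := by
      have h1 : ((2 : ℝ) ^ (2 / ε)) ^ (ε / 2) ≤ (n : ℝ) ^ (ε / 2) :=
        Real.rpow_le_rpow (by positivity) hbig (by positivity)
      have h2 : ((2 : ℝ) ^ (2 / ε)) ^ (ε / 2) = 2 := by
        rw [← Real.rpow_mul (by norm_num)]
        have : 2 / ε * (ε / 2) = 1 := by field_simp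
        rw [this, Real.rpow_one]
      linarith
    have hpos : 0 < (n : ℝ) ^ (1 + ε / 2) := Real.rpow_pos_of_pos hnpos _
    nlinarith

end Pool.Agent.Results.MP_31a0d1_lc.PolynomialGap
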